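import Pool.Agent.MP_b8fe60_gt.Mg.Top
import Pool.Agent.MP_b8fe60_gt.Mg.Conv

namespace Pool.Agent.Results.MP_b8fe60_gt.Decomposition

open Pool.Agent.MP_b8fe60_gt

theorem result (d : ℕ) (M : Set (EuclideanSpace ℝ (Fin d))) (hM : IsCompact M) (hw : IsWDC M) :
    ∃ (m : ℕ) (T : Fin m → Set (EuclideanSpace ℝ (Fin d))) (k : Fin m → ℕ),
      (∀ i, k i ≤ d ∧ IsDCManifold (k i) (T i)) ∧
        (∀ i j, i ≠ j → Disjoint (T i) (T j)) ∧ M = ⋃ i, T i := by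
  obtain ⟨f, φ, L, c, R, U, h, hc, hR, hU, h1, h2, h3⟩ := ctx_of_wdc M hM hw
  exact of_decomp M (decomp_of_ctx h c R hc hR U _ hU
    (hM.isClosed.preimage (PiLp.continuous_toLp 2 _)) h1 h2 h3)

end Pool.Agent.Results.MP_b8fe60_gt.Decomposition
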